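import Mathlib

set_option autoImplicit false

/-!
# Eternal gas clouds whose limit shapes at the two time ends differ
-/

open Filter Topology Set MeasureTheory
open scoped Pointwise ContDiff

namespace Pool.Agent.Results.MP_f907ca_an.TwistedCloud

/-- Euclidean space. -/
abbrev E (d : ℕ) : Type := EuclideanSpace ℝ (Fin d)

/-- The `j`-th unit vector. -/
noncomputable abbrev e {d : ℕ} (j : Fin d) : E d := EuclideanSpace.single j 1

/-- A shock-free eternal flow in vacuum with physical singularity at every point of the front: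
`Ω t` is the domain of the gas, `ρ` the density, `u` the velocity, `p = A ρ ^ γ`, `c² = γ A ρ^(γ-1)`. -/
structure IsEternalFlow (d : ℕ) (A γ : ℝ) (Ω : ℝ → Set (E d)) (ρ : ℝ → E d → ℝ)
    (u : ℝ → E d → E d) : Prop where
  /-- the domains are open, nonempty and bounded -/
  domain : ∀ t, IsOpen (Ω t) ∧ (Ω t).Nonempty ∧ Bornology.IsBounded (Ω t)
  /-- the density is positive in `Ω t` -/
  pos : ∀ t, ∀ x ∈ Ω t, 0 < ρ t x
  /-- vacuum outside -/
  vacuum : ∀ t, ∀ x ∉ Ω t, ρ t x = 0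
  /-- finite mass -/
  mass : ∀ t, Integrable (ρ t)
  /-- finite energy -/
  energy : ∀ t, Integrable (fun x => ρ t x * ‖u t x‖ ^ 2 / 2 + A * ρ t x ^ γ / (γ - 1))
  /-- the density is `C¹` in the open space-time domain of the gas -/
  smoothDensity : IsOpen {z : ℝ × E d | z.2 ∈ Ω z.1} ∧
    ContDiffOn ℝ 1 (fun z : ℝ × E d => ρ z.1 z.2) {z | z.2 ∈ Ω z.1}
  /-- the velocity is `C^∞` in the whole space-time, in particular across the front -/
  smoothVelocity : ContDiff ℝ ∞ (fun z : ℝ × E d => u z.1 z.2)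
  /-- conservation of mass -/
  continuity : ∀ t, ∀ x ∈ Ω t, deriv (fun s => ρ s x) t +
    ∑ j, fderiv ℝ (fun y => ρ t y * u t y j) x (e j) = 0
  /-- conservation of momentum -/
  momentum : ∀ t, ∀ x ∈ Ω t, ∀ i, deriv (fun s => ρ s x * u s x i) t +
    ∑ j, fderiv ℝ (fun y => ρ t y * u t y i * u t y j) x (e j) +
    fderiv ℝ (fun y => A * ρ t y ^ γ) x (e i) = 0
  /-- `c²` is locally Lipschitz in the whole space-time, in particular up to the front -/
  lipschitz : LocallyLipschitz (fun z : ℝ × E d => γ * A * ρ z.1 z.2 ^ (γ - 1))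
  /-- The front is smooth, it moves with the normal velocity `⟪u, ν⟫`, the singularity is physical:
  `g = -(1/(γ-1)) ∂c²/∂ν > 0` at every point of the front, `ν` the outer unit normal, and the
  acceleration of the boundary particles is `g ν`. -/
  front : ∃ φ : ℝ → E d → ℝ, ContDiff ℝ ∞ (fun z : ℝ × E d => φ z.1 z.2) ∧
    (∀ t, Ω t = {x | φ t x < 0}) ∧ (∀ t, frontier (Ω t) = {x | φ t x = 0}) ∧
    ∀ t x, φ t x = 0 → ∃ (ν : E d) (k g : ℝ), ‖ν‖ = 1 ∧ 0 < k ∧
      (∀ v, fderiv ℝ (φ t) x v = k * inner ℝ ν v) ∧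
      deriv (fun s => φ s x) t + k * inner ℝ (u t x) ν = 0 ∧
      0 < g ∧
      HasDerivWithinAt (fun s : ℝ => γ * A * ρ t (x + s • ν) ^ (γ - 1)) (-((γ - 1) * g)) (Iic 0) 0 ∧
      deriv (fun s => u s x) t + fderiv ℝ (u t) x (u t x) = g • ν

/-- `Ω t` behaves asymptotically as `t O` along the filter `l` (`atTop` or `atBot`): the closures of
`t⁻¹ Ω t` converge to the closure of `O` in Hausdorff distance. -/
def Behaves {d : ℕ} (Ω : ℝ → Set (E d)) (O : Set (E d)) (l : Filter ℝ) : Prop :=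
  Tendsto (fun t : ℝ => Metric.hausdorffEDist (closure (t⁻¹ • Ω t)) (closure O)) l (𝓝 0)

section example_

variable {n : ℕ}

/-- the angle -/
noncomputable def th (t : ℝ) : ℝ := √2 * Real.arctan t

/-- the symmetric bilinear form -/
noncomputable def bq (t : ℝ) (x y : E (n + 2)) : ℝ :=
  (inner ℝ x y + 9 / 8 * (x 0 * y 0 + x 1 * y 1) -
    15 / 8 * (Real.cos (th t) * (x 0 * y 0 - x 1 * y 1) +
      Real.sin (th t) * (x 0 * y 1 + x 1 * y 0))) / (1 + t ^ 2)

/-- the quadratic form -/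
noncomputable def q (t : ℝ) (x : E (n + 2)) : ℝ := bq t x x

noncomputable def p0 : E (n + 2) →L[ℝ] ℝ := EuclideanSpace.proj 0
noncomputable def p1 : E (n + 2) →L[ℝ] ℝ := EuclideanSpace.proj 1

lemma p0_apply (x : E (n + 2)) : p0 x = x 0 := rfl
lemma p1_apply (x : E (n + 2)) : p1 x = x 1 := rfl

/-- the velocity, a linear map for each `t` -/
noncomputable def UL (t : ℝ) : E (n + 2) →L[ℝ] E (n + 2) :=
  (t / (1 + t ^ 2)) • ContinuousLinearMap.id ℝ _ +
    (√2 / (1 + t ^ 2)) •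
      (((-(15 / 16 * Real.sin (th t))) • p0 + (15 / 16 * Real.cos (th t) + 9 / 16) • p1).smulRight
        (e 0 : E (n + 2)) +
      ((15 / 16 * Real.cos (th t) - 9 / 16) • p0 + (15 / 16 * Real.sin (th t)) • p1).smulRight
        (e 1 : E (n + 2)))

/-- the density to the power `2 / d` -/
noncomputable def Pp (A t : ℝ) (x : E (n + 2)) : ℝ :=
  (A * (n + 4))⁻¹ * max ((1 - q t x) / (1 + t ^ 2)) 0

noncomputable def rho (A t : ℝ) (x : E (n + 2)) : ℝ := Pp A t x ^ (((n : ℝ) + 2) / 2)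

def Om (t : ℝ) : Set (E (n + 2)) := {x | q t x < 1}

lemma den_pos (t : ℝ) : 0 < 1 + t ^ 2 := by positivity

lemma w0 (t : ℝ) (x : E (n + 2)) : (UL t x) 0 = t / (1 + t ^ 2) * x 0 + √2 / (1 + t ^ 2) *
    (-(15 / 16 * Real.sin (th t)) * x 0 + (15 / 16 * Real.cos (th t) + 9 / 16) * x 1) := by
  simp [UL, p0, p1]

lemma w1 (t : ℝ) (x : E (n + 2)) : (UL t x) 1 = t / (1 + t ^ 2) * x 1 + √2 / (1 + t ^ 2) *
    ((15 / 16 * Real.cos (th t) - 9 / 16) * x 0 + (15 / 16 * Real.sin (th t)) * x 1) := by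
  simp [UL, p0, p1]

lemma inner_UL (t : ℝ) (x y : E (n + 2)) : inner ℝ x (UL t y) = t / (1 + t ^ 2) * inner ℝ x y +
    √2 / (1 + t ^ 2) *
    (x 0 * (-(15 / 16 * Real.sin (th t)) * y 0 + (15 / 16 * Real.cos (th t) + 9 / 16) * y 1) +
     x 1 * ((15 / 16 * Real.cos (th t) - 9 / 16) * y 0 + (15 / 16 * Real.sin (th t)) * y 1)) := by
  simp [UL, p0, p1, inner_add_right, inner_smul_right, EuclideanSpace.inner_single_right]
  ring

lemma hasDerivAt_th (t : ℝ) : HasDerivAt th (√2 / (1 + t ^ 2)) t := by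
  have := (Real.hasDerivAt_arctan t).const_mul (√2)
  refine this.congr_deriv ?_
  ring

lemma bq_UL (t : ℝ) (x : E (n + 2)) : 2 * bq t x (UL t x) * (1 + t ^ 2) =
    2 * t * q t x + √2 / (1 + t ^ 2) * (15 / 8) *
      (-Real.sin (th t) * (x 0 ^ 2 - x 1 ^ 2) + 2 * Real.cos (th t) * (x 0 * x 1)) := by
  have hd := (den_pos t).ne'
  unfold q bq
  rw [inner_UL, w0, w1]
  field_simp
  ring_nf

lemma q_eq (t : ℝ) (x : E (n + 2)) : q t x = (‖x‖ ^ 2 + 9 / 8 * (x 0 * x 0 + x 1 * x 1) -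
    15 / 8 * (Real.cos (th t) * (x 0 * x 0 - x 1 * x 1) +
      Real.sin (th t) * (x 0 * x 1 + x 1 * x 0))) / (1 + t ^ 2) := by
  unfold q bq
  rw [real_inner_self_eq_norm_sq]

/-- half of the gradient of `q t` -/
noncomputable def G (t : ℝ) (x : E (n + 2)) : E (n + 2) :=
  (1 + t ^ 2)⁻¹ • (x +
    (9 / 8 * x 0 - 15 / 8 * (Real.cos (th t) * x 0 + Real.sin (th t) * x 1)) • (e 0 : E (n + 2)) +
    (9 / 8 * x 1 - 15 / 8 * (-Real.cos (th t) * x 1 + Real.sin (th t) * x 0)) • (e 1 : E (n + 2)))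

lemma inner_G (t : ℝ) (x v : E (n + 2)) : inner ℝ (G t x) v = bq t x v := by
  unfold G bq
  simp only [inner_smul_left, inner_add_left, EuclideanSpace.inner_single_left]
  simp
  ring

/-- the derivative of `q t` -/
lemma hasFDerivAt_q (t : ℝ) (x : E (n + 2)) :
    HasFDerivAt (q t) ((2 : ℝ) • innerSL ℝ (G t x)) x := by
  have h0 : HasFDerivAt (fun y : E (n + 2) => y 0) (p0 : E (n + 2) →L[ℝ] ℝ) x :=
    (p0 : E (n + 2) →L[ℝ] ℝ).hasFDerivAt
  have h1 : HasFDerivAt (fun y : E (n + 2) => y 1) (p1 : E (n + 2) →L[ℝ] ℝ) x :=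
    (p1 : E (n + 2) →L[ℝ] ℝ).hasFDerivAt
  have hn : HasFDerivAt (fun y : E (n + 2) => ‖y‖ ^ 2) (2 • (innerSL ℝ x)) x :=
    (hasStrictFDerivAt_norm_sq x).hasFDerivAt
  have H := (((hn.add (((h0.mul h0).add (h1.mul h1)).const_mul (9 / 8))).sub
    (((((h0.mul h0).sub (h1.mul h1)).const_mul (Real.cos (th t))).add
      (((h0.mul h1).add (h1.mul h0)).const_mul (Real.sin (th t)))).const_mul (15 / 8))).mul_const
      ((1 + t ^ 2)⁻¹))
  have e1 : (fun y : E (n + 2) => (‖y‖ ^ 2 + 9 / 8 * (y 0 * y 0 + y 1 * y 1) -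
    15 / 8 * (Real.cos (th t) * (y 0 * y 0 - y 1 * y 1) +
      Real.sin (th t) * (y 0 * y 1 + y 1 * y 0))) * (1 + t ^ 2)⁻¹) = q t := by
    funext y
    rw [q_eq]
    exact (div_eq_mul_inv _ _).symm
  rw [← e1]
  refine HasFDerivAt.congr_fderiv H ?_
  ext v
  have h2 : ((2 : ℝ) • innerSL ℝ (G t x)) v = 2 * bq t x v := by
    rw [← inner_G]
    simp [innerSL_apply_apply]
  rw [h2]
  unfold bq
  simp only [p0_apply, p1_apply, add_apply, smul_apply, sub_apply, innerSL_apply_apply, smul_eq_mul,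
    nsmul_eq_mul, Nat.cast_ofNat]
  field_simp
  ring

lemma q_expand (t : ℝ) (x v : E (n + 2)) (s : ℝ) :
    q t (x + s • v) = q t x + s * (2 * bq t x v) + s ^ 2 * q t v := by
  unfold q bq
  simp only [inner_add_left, inner_add_right, inner_smul_left, inner_smul_right, PiLp.add_apply,
    PiLp.smul_apply, smul_eq_mul, real_inner_comm x v]
  simp
  ring

lemma q_smul (t : ℝ) (x : E (n + 2)) (s : ℝ) : q t (s • x) = s ^ 2 * q t x := by
  unfold q bq
  simp only [inner_smul_left, inner_smul_right, PiLp.smul_apply, smul_eq_mul]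
  simp
  ring

lemma sq_two_le (x : E (n + 2)) : x 0 ^ 2 + x 1 ^ 2 ≤ ‖x‖ ^ 2 := by
  rw [EuclideanSpace.norm_sq_eq]
  have : ∑ j : Fin (n + 2), ‖x j‖ ^ 2 = ‖x 0‖ ^ 2 + (‖x 1‖ ^ 2 + ∑ j : Fin n, ‖x j.succ.succ‖ ^ 2) := by
    rw [Fin.sum_univ_succ, Fin.sum_univ_succ]
    rfl
  rw [this]
  simp only [Real.norm_eq_abs, sq_abs]
  have : 0 ≤ ∑ j : Fin n, x j.succ.succ ^ 2 := Finset.sum_nonneg fun _ _ => sq_nonneg _
  linarith

lemma rot_le (C S a b : ℝ) (h : S ^ 2 + C ^ 2 = 1) :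
    |C * (a * a - b * b) + S * (a * b + b * a)| ≤ a ^ 2 + b ^ 2 := by
  refine abs_le_of_sq_le_sq ?_ (by positivity)
  nlinarith [sq_nonneg (S * (a * a - b * b) - C * (a * b + b * a)), h]

lemma q_bounds (t : ℝ) (x : E (n + 2)) :
    1 / 4 * ‖x‖ ^ 2 / (1 + t ^ 2) ≤ q t x ∧ q t x ≤ 4 * ‖x‖ ^ 2 / (1 + t ^ 2) := by
  have h1 := sq_two_le x
  have h2 := abs_le.1 (rot_le (Real.cos (th t)) (Real.sin (th t)) (x 0) (x 1)
    (Real.sin_sq_add_cos_sq _))
  rw [q_eq]
  constructor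
  · refine div_le_div_of_nonneg_right ?_ (den_pos t).le
    nlinarith [h2.2]
  · refine div_le_div_of_nonneg_right ?_ (den_pos t).le
    nlinarith [h2.1]

lemma q_nonneg (t : ℝ) (x : E (n + 2)) : 0 ≤ q t x :=
  le_trans (by have := den_pos t; positivity) (q_bounds t x).1

/-- the derivative of `q` in time -/
lemma hasDerivAt_q (t : ℝ) (x : E (n + 2)) :
    HasDerivAt (fun s => q s x) (-(2 * bq t x (UL t x))) t := by
  have hc := ((hasDerivAt_th t).cos).mul_const (x 0 * x 0 - x 1 * x 1)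
  have hs := ((hasDerivAt_th t).sin).mul_const (x 0 * x 1 + x 1 * x 0)
  have hd : HasDerivAt (fun s : ℝ => 1 + s ^ 2) (2 * t) t := by
    have := ((hasDerivAt_id t).pow 2).const_add 1
    exact this.congr_deriv (by simp)
  have H := (((hc.add hs).const_mul (15 / 8)).const_sub
    (‖x‖ ^ 2 + 9 / 8 * (x 0 * x 0 + x 1 * x 1))).div hd (den_pos t).ne'
  have e : (fun s => q s x) = fun s => (‖x‖ ^ 2 + 9 / 8 * (x 0 * x 0 + x 1 * x 1) -
    15 / 8 * (Real.cos (th s) * (x 0 * x 0 - x 1 * x 1) +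
      Real.sin (th s) * (x 0 * x 1 + x 1 * x 0))) / (1 + s ^ 2) := by
    funext s
    rw [q_eq]
  rw [e]
  refine H.congr_deriv ?_
  have h1 := bq_UL t x
  have hd' := (den_pos t).ne'
  have h2 : 2 * bq t x (UL t x) = (2 * t * q t x + √2 / (1 + t ^ 2) * (15 / 8) *
      (-Real.sin (th t) * (x 0 ^ 2 - x 1 ^ 2) + 2 * Real.cos (th t) * (x 0 * x 1))) / (1 + t ^ 2) := by
    rw [eq_div_iff hd']
    exact h1
  rw [h2, q_eq]
  simp only [Pi.add_apply]
  field_simp
  ring

/-- the acceleration of the particles -/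
lemma hasDerivAt_UL (t : ℝ) (x : E (n + 2)) :
    HasDerivAt (fun s => UL s x) ((1 + t ^ 2)⁻¹ • G t x - UL t (UL t x)) t := by
  have hd : HasDerivAt (fun s : ℝ => 1 + s ^ 2) (2 * t) t := by
    have := ((hasDerivAt_id t).pow 2).const_add 1
    exact this.congr_deriv (by simp)
  have hd' := (den_pos t).ne'
  have ha := ((hasDerivAt_id t).div hd hd').smul_const x
  have hb := (hasDerivAt_const t (√2)).div hd hd'
  have hc := (hasDerivAt_th t).cos
  have hs := (hasDerivAt_th t).sin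
  have h0 := (hb.mul ((((hs.const_mul (15 / 16)).neg).mul_const (x 0)).add
    (((hc.const_mul (15 / 16)).add_const (9 / 16)).mul_const (x 1)))).smul_const (e 0 : E (n + 2))
  have h1 := (hb.mul ((((hc.const_mul (15 / 16)).sub_const (9 / 16)).mul_const (x 0)).add
    ((hs.const_mul (15 / 16)).mul_const (x 1)))).smul_const (e 1 : E (n + 2))
  have H := (ha.add h0).add h1
  have ee : (fun s => UL s x) = fun s => (s / (1 + s ^ 2)) • x +
      (√2 / (1 + s ^ 2) * (-(15 / 16 * Real.sin (th s)) * x 0 +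
        (15 / 16 * Real.cos (th s) + 9 / 16) * x 1)) • (e 0 : E (n + 2)) +
      (√2 / (1 + s ^ 2) * ((15 / 16 * Real.cos (th s) - 9 / 16) * x 0 +
        15 / 16 * Real.sin (th s) * x 1)) • (e 1 : E (n + 2)) := by
    funext s
    simp [UL, p0, p1, smul_smul, add_assoc]
  rw [ee]
  refine H.congr_deriv ?_
  have hsq : (√2) ^ 2 = 2 := Real.sq_sqrt (by norm_num)
  have hsc := Real.sin_sq_add_cos_sq (th t)
  have key : ∀ z : E (n + 2), UL t z = (t / (1 + t ^ 2)) • z +
      (√2 / (1 + t ^ 2) * (-(15 / 16 * Real.sin (th t)) * z 0 +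
        (15 / 16 * Real.cos (th t) + 9 / 16) * z 1)) • (e 0 : E (n + 2)) +
      (√2 / (1 + t ^ 2) * ((15 / 16 * Real.cos (th t) - 9 / 16) * z 0 +
        15 / 16 * Real.sin (th t) * z 1)) • (e 1 : E (n + 2)) := by
    intro z
    simp [UL, p0, p1, smul_smul, add_assoc]
  rw [key (UL t x), w0, w1, key x]
  unfold G
  ext j
  simp only [PiLp.add_apply, PiLp.sub_apply, PiLp.smul_apply, smul_eq_mul]
  simp only [Pi.add_apply, Pi.div_apply, Pi.neg_apply, id]
  generalize Real.sin (th t) = S at *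
  generalize Real.cos (th t) = C at *
  generalize √2 = r at *
  generalize (e 0 : E (n + 2)) j = d0
  generalize (e 1 : E (n + 2)) j = d1
  generalize x 0 = x0
  generalize x 1 = x1
  generalize x j = xj
  have hC : C ^ 2 = 1 - S ^ 2 := by linarith
  simp only [div_eq_mul_inv, ← inv_pow]
  linear_combination ((1 + t ^ 2)⁻¹ ^ 2 * (
    ((-15 / 16 * C * x0 - 15 / 16 * S * x1) +
      (-15 / 16 * S * (-15 / 16 * S * x0 + (15 / 16 * C + 9 / 16) * x1) +
       (15 / 16 * C + 9 / 16) * ((15 / 16 * C - 9 / 16) * x0 + 15 / 16 * S * x1))) * d0 +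
    ((-15 / 16 * S * x0 + 15 / 16 * C * x1) +
      ((15 / 16 * C - 9 / 16) * (-15 / 16 * S * x0 + (15 / 16 * C + 9 / 16) * x1) +
       (15 / 16 * S) * ((15 / 16 * C - 9 / 16) * x0 + 15 / 16 * S * x1))) * d1)) * hsq +
    ((1 + t ^ 2)⁻¹ ^ 2 * (2 * 225 / 256) * (x0 * d0 + x1 * d1)) * hC

lemma UL_eq (t : ℝ) (z : E (n + 2)) : UL t z = (t / (1 + t ^ 2)) • z +
      (√2 / (1 + t ^ 2) * (-(15 / 16 * Real.sin (th t)) * z 0 +
        (15 / 16 * Real.cos (th t) + 9 / 16) * z 1)) • (e 0 : E (n + 2)) +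
      (√2 / (1 + t ^ 2) * ((15 / 16 * Real.cos (th t) - 9 / 16) * z 0 +
        15 / 16 * Real.sin (th t) * z 1)) • (e 1 : E (n + 2)) := by
  simp [UL, p0, p1, smul_smul, add_assoc]

lemma contDiff_th : ContDiff ℝ ∞ th := contDiff_const.mul Real.contDiff_arctan

lemma contDiff_th1 : ContDiff ℝ ∞ (fun z : ℝ × E (n + 2) => th z.1) :=
  contDiff_th.comp contDiff_fst

lemma contDiff_c0 : ContDiff ℝ ∞ (fun z : ℝ × E (n + 2) => z.2 0) :=
  (p0 : E (n + 2) →L[ℝ] ℝ).contDiff.comp contDiff_snd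

lemma contDiff_c1 : ContDiff ℝ ∞ (fun z : ℝ × E (n + 2) => z.2 1) :=
  (p1 : E (n + 2) →L[ℝ] ℝ).contDiff.comp contDiff_snd

lemma contDiff_q : ContDiff ℝ ∞ (fun z : ℝ × E (n + 2) => q z.1 z.2) := by
  have e1 : (fun z : ℝ × E (n + 2) => q z.1 z.2) = fun z =>
    (‖z.2‖ ^ 2 + 9 / 8 * (z.2 0 * z.2 0 + z.2 1 * z.2 1) -
    15 / 8 * (Real.cos (th z.1) * (z.2 0 * z.2 0 - z.2 1 * z.2 1) +
      Real.sin (th z.1) * (z.2 0 * z.2 1 + z.2 1 * z.2 0))) / (1 + z.1 ^ 2) := by
    funext z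
    rw [q_eq]
  rw [e1]
  have h0 := contDiff_c0 (n := n)
  have h1 := contDiff_c1 (n := n)
  have ht := contDiff_th1 (n := n)
  have hn : ContDiff ℝ ∞ (fun z : ℝ × E (n + 2) => ‖z.2‖ ^ 2) :=
    (contDiff_norm_sq ℝ).comp contDiff_snd
  refine ContDiff.div ?_ ?_ fun z => (den_pos z.1).ne'
  · exact (hn.add (contDiff_const.mul ((h0.mul h0).add (h1.mul h1)))).sub
      (contDiff_const.mul (((Real.contDiff_cos.comp ht).mul ((h0.mul h0).sub (h1.mul h1))).add
        ((Real.contDiff_sin.comp ht).mul ((h0.mul h1).add (h1.mul h0)))))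
  · exact contDiff_const.add (contDiff_fst.pow 2)

lemma contDiff_UL : ContDiff ℝ ∞ (fun z : ℝ × E (n + 2) => UL z.1 z.2) := by
  have e1 : (fun z : ℝ × E (n + 2) => UL z.1 z.2) = fun z => (z.1 / (1 + z.1 ^ 2)) • z.2 +
      (√2 / (1 + z.1 ^ 2) * (-(15 / 16 * Real.sin (th z.1)) * z.2 0 +
        (15 / 16 * Real.cos (th z.1) + 9 / 16) * z.2 1)) • (e 0 : E (n + 2)) +
      (√2 / (1 + z.1 ^ 2) * ((15 / 16 * Real.cos (th z.1) - 9 / 16) * z.2 0 +
        15 / 16 * Real.sin (th z.1) * z.2 1)) • (e 1 : E (n + 2)) := by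
    funext z
    rw [UL_eq]
  rw [e1]
  have h0 := contDiff_c0 (n := n)
  have h1 := contDiff_c1 (n := n)
  have ht := contDiff_th1 (n := n)
  have hd : ContDiff ℝ ∞ (fun z : ℝ × E (n + 2) => 1 + z.1 ^ 2) :=
    contDiff_const.add (contDiff_fst.pow 2)
  have hs := Real.contDiff_sin.comp ht
  have hc := Real.contDiff_cos.comp ht
  have hd0 : ∀ z : ℝ × E (n + 2), 1 + z.1 ^ 2 ≠ 0 := fun z => (den_pos z.1).ne'
  exact (((contDiff_fst.div hd hd0).smul contDiff_snd).add
    (((contDiff_const.div hd hd0).mul (((contDiff_const.mul hs).neg.mul h0).add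
      (((contDiff_const.mul hc).add contDiff_const).mul h1))).smul contDiff_const)).add
    (((contDiff_const.div hd hd0).mul ((((contDiff_const.mul hc).sub contDiff_const).mul h0).add
      ((contDiff_const.mul hs).mul h1))).smul contDiff_const)

/-! ### The domain -/

lemma q_zero (t : ℝ) : q t (0 : E (n + 2)) = 0 := by
  have := q_smul t (0 : E (n + 2)) 0
  simpa using this

lemma continuous_q (t : ℝ) : Continuous (q t : E (n + 2) → ℝ) :=
  contDiff_q.continuous.comp (by fun_prop : Continuous fun x : E (n + 2) => (t, x))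

lemma isOpen_Om (t : ℝ) : IsOpen (Om t : Set (E (n + 2))) :=
  isOpen_lt (continuous_q t) continuous_const

lemma isOpen_dom : IsOpen {z : ℝ × E (n + 2) | z.2 ∈ Om z.1} :=
  isOpen_lt contDiff_q.continuous continuous_const

lemma Om_subset_ball (t : ℝ) :
    (Om t : Set (E (n + 2))) ⊆ Metric.closedBall 0 (2 * √(1 + t ^ 2)) := by
  intro x hx
  have h1 : q t x < 1 := hx
  have h2 := (q_bounds t x).1
  have hd := den_pos t
  rw [mem_closedBall_zero_iff]
  have h3 : ‖x‖ ^ 2 ≤ 4 * (1 + t ^ 2) := by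
    rw [div_le_iff₀ hd] at h2
    nlinarith
  refine abs_le_of_sq_le_sq' ?_ (by positivity) |>.2
  rw [mul_pow, Real.sq_sqrt hd.le]
  linarith

lemma frontier_Om (t : ℝ) : frontier (Om t : Set (E (n + 2))) = {x | q t x - 1 = 0} := by
  rw [(isOpen_Om t).frontier_eq]
  ext x
  constructor
  · rintro ⟨h1, h2⟩
    have h3 : x ∈ {x | q t x ≤ 1} :=
      closure_minimal (fun y hy => le_of_lt hy) (isClosed_le (continuous_q t) continuous_const) h1
    have h4 : ¬ q t x < 1 := h2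
    have h5 : q t x ≤ 1 := h3
    show q t x - 1 = 0
    linarith
  · intro h
    have h : q t x - 1 = 0 := h
    refine ⟨?_, fun h' => ?_⟩
    · have hlim : Tendsto (fun s : ℝ => s • x) (𝓝[<] 1) (𝓝 ((1 : ℝ) • x)) :=
        ((continuous_id.smul continuous_const).tendsto 1).mono_left nhdsWithin_le_nhds
      rw [one_smul] at hlim
      refine mem_closure_of_tendsto hlim ?_
      have h1 : ∀ᶠ s : ℝ in 𝓝[<] 1, 0 < s :=
        nhdsWithin_le_nhds (lt_mem_nhds one_pos)
      filter_upwards [h1, self_mem_nhdsWithin] with s hs1 hs2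
      have hs2 : s < 1 := hs2
      show q t (s • x) < 1
      rw [q_smul]
      nlinarith
    · have h' : q t x < 1 := h'
      linarith

/-! ### The density -/

/-- `Pp` without the positive part -/
noncomputable def Pq (A t : ℝ) (x : E (n + 2)) : ℝ :=
  (A * (n + 4))⁻¹ * ((1 - q t x) / (1 + t ^ 2))

variable {A : ℝ} (hA : 0 < A)

include hA in
lemma K_pos (n : ℕ) : 0 < (A * ((n : ℝ) + 4))⁻¹ := by positivity

include hA in
lemma Pp_nonneg (t : ℝ) (x : E (n + 2)) : 0 ≤ Pp A t x :=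
  mul_nonneg (K_pos hA n).le (le_max_right _ _)

lemma Pp_eq (t : ℝ) (x : E (n + 2)) (hx : x ∈ Om t) : Pp A t x = Pq A t x := by
  have hx : q t x < 1 := hx
  unfold Pp Pq
  rw [max_eq_left]
  exact div_nonneg (by linarith) (den_pos t).le

include hA in
lemma Pq_pos (t : ℝ) (x : E (n + 2)) (hx : x ∈ Om t) : 0 < Pq A t x := by
  have hx : q t x < 1 := hx
  exact mul_pos (K_pos hA n) (div_pos (by linarith) (den_pos t))

lemma Pp_zero (t : ℝ) (x : E (n + 2)) (hx : x ∉ Om t) : Pp A t x = 0 := by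
  have hx : ¬ q t x < 1 := hx
  unfold Pp
  rw [max_eq_right, mul_zero]
  exact div_nonpos_of_nonpos_of_nonneg (by linarith) (den_pos t).le

lemma contDiff_Pq : ContDiff ℝ ∞ (fun z : ℝ × E (n + 2) => Pq A z.1 z.2) :=
  contDiff_const.mul ((contDiff_const.sub contDiff_q).div (contDiff_const.add (contDiff_fst.pow 2))
    fun z => (den_pos z.1).ne')

include hA in
lemma Pp_max (t : ℝ) (x : E (n + 2)) : Pp A t x = max (Pq A t x) 0 := by
  unfold Pp Pq
  rw [mul_max_of_nonneg _ _ (K_pos hA n).le, mul_zero]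

include hA in
lemma continuous_Pp (t : ℝ) : Continuous (Pp A t : E (n + 2) → ℝ) := by
  have : (Pp A t : E (n + 2) → ℝ) = fun x => max (Pq A t x) 0 := funext (Pp_max hA t)
  rw [this]
  exact (contDiff_Pq.continuous.comp (by fun_prop : Continuous fun x : E (n + 2) => (t, x))).max
    continuous_const

include hA in
lemma continuous_rho (t : ℝ) : Continuous (rho A t : E (n + 2) → ℝ) :=
  (continuous_Pp hA t).rpow_const fun _ => Or.inr (by positivity)

lemma rho_zero (t : ℝ) (x : E (n + 2)) (hx : x ∉ Om t) : rho A t x = 0 := by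
  unfold rho
  rw [Pp_zero t x hx, Real.zero_rpow (by positivity)]

include hA in
lemma rho_pos (t : ℝ) (x : E (n + 2)) (hx : x ∈ Om t) : 0 < rho A t x := by
  unfold rho
  rw [Pp_eq t x hx]
  exact Real.rpow_pos_of_pos (Pq_pos hA t x hx) _

/-- the adiabatic exponent -/
noncomputable def gam (n : ℕ) : ℝ := 1 + 2 / ((n : ℝ) + 2)

include hA in
lemma rho_rpow (t : ℝ) (x : E (n + 2)) : rho A t x ^ (gam n - 1) = Pp A t x := by
  unfold rho gam
  rw [← Real.rpow_mul (Pp_nonneg hA t x)]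
  have : ((n : ℝ) + 2) / 2 * (1 + 2 / ((n : ℝ) + 2) - 1) = 1 := by
    have : (n : ℝ) + 2 ≠ 0 := by positivity
    field_simp
    ring
  rw [this, Real.rpow_one]

include hA in
lemma rho_rpow' (t : ℝ) (x : E (n + 2)) :
    rho A t x ^ gam n = Pp A t x ^ (((n : ℝ) + 2) / 2 + 1) := by
  unfold rho gam
  rw [← Real.rpow_mul (Pp_nonneg hA t x)]
  congr 1
  have : (n : ℝ) + 2 ≠ 0 := by positivity
  field_simp

lemma integrable_of_zero {f : E (n + 2) → ℝ} (hf : Continuous f) (t : ℝ)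
    (h : ∀ x ∉ Om t, f x = 0) : Integrable f := by
  refine hf.integrable_of_hasCompactSupport ?_
  refine HasCompactSupport.intro (isCompact_closedBall 0 (2 * √(1 + t ^ 2))) fun x hx => ?_
  exact h x fun h' => hx (Om_subset_ball t h')

/-! ### The equations -/

/-- time derivative of `Pq` -/
lemma hasDerivAt_Pq (t : ℝ) (x : E (n + 2)) :
    HasDerivAt (fun s => Pq A s x) ((A * (n + 4))⁻¹ *
      ((2 * bq t x (UL t x)) / (1 + t ^ 2) - (1 - q t x) * (2 * t) / (1 + t ^ 2) ^ 2)) t := by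
  have hd : HasDerivAt (fun s : ℝ => 1 + s ^ 2) (2 * t) t := by
    have := ((hasDerivAt_id t).pow 2).const_add 1
    exact this.congr_deriv (by simp)
  have H := (((hasDerivAt_q t x).const_sub 1).div hd (den_pos t).ne').const_mul ((A * (n + 4))⁻¹)
  refine H.congr_deriv ?_
  have := (den_pos t).ne'
  field_simp

/-- space derivative of `Pq` -/
lemma hasFDerivAt_Pq (t : ℝ) (x : E (n + 2)) :
    HasFDerivAt (Pq A t) ((-(2 * (A * (n + 4))⁻¹ / (1 + t ^ 2))) • innerSL ℝ (G t x)) x := by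
  have H := ((((hasFDerivAt_q t x).const_sub 1).mul_const ((1 + t ^ 2)⁻¹))).const_mul
    ((A * (n + 4))⁻¹)
  have e1 : (fun y : E (n + 2) => (A * (n + 4))⁻¹ * ((1 - q t y) * (1 + t ^ 2)⁻¹)) = Pq A t := by
    funext y
    simp only [Pq, div_eq_mul_inv]
  rw [← e1]
  refine HasFDerivAt.congr_fderiv H ?_
  ext v
  simp only [smul_apply, neg_apply, smul_eq_mul]
  ring

/-- the expression common to all derivatives of the density -/
noncomputable def R (A t : ℝ) (x : E (n + 2)) : ℝ :=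
  ((n : ℝ) + 2) / 2 * Pq A t x ^ (((n : ℝ) + 2) / 2 - 1)

lemma rho_eq (t : ℝ) (x : E (n + 2)) (hx : x ∈ Om t) :
    rho A t x = Pq A t x ^ (((n : ℝ) + 2) / 2) := by
  unfold rho
  rw [Pp_eq t x hx]

include hA in
lemma hasDerivAt_rho (t : ℝ) (x : E (n + 2)) (hx : x ∈ Om t) :
    HasDerivAt (fun s => rho A s x) (R A t x * ((A * (n + 4))⁻¹ *
      ((2 * bq t x (UL t x)) / (1 + t ^ 2) - (1 - q t x) * (2 * t) / (1 + t ^ 2) ^ 2))) t := by
  have hP := Pq_pos hA t x hx
  have H := (hasDerivAt_Pq (A := A) t x).rpow_const (p := ((n : ℝ) + 2) / 2) (Or.inl hP.ne')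
  have hev : (fun s => rho A s x) =ᶠ[𝓝 t] fun s => Pq A s x ^ (((n : ℝ) + 2) / 2) := by
    have : ∀ᶠ s in 𝓝 t, x ∈ Om s :=
      (isOpen_dom.preimage (by fun_prop : Continuous fun s : ℝ => (s, x))).mem_nhds hx
    filter_upwards [this] with s hs
    exact rho_eq s x hs
  refine (H.congr_of_eventuallyEq hev).congr_deriv ?_
  unfold R
  ring

include hA in
lemma hasFDerivAt_rho (t : ℝ) (x : E (n + 2)) (hx : x ∈ Om t) :
    HasFDerivAt (rho A t) (R A t x • (-(2 * (A * (n + 4))⁻¹ / (1 + t ^ 2))) •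
      innerSL ℝ (G t x)) x := by
  have hP := Pq_pos hA t x hx
  have H := (hasFDerivAt_Pq (A := A) t x).rpow_const (p := ((n : ℝ) + 2) / 2) (Or.inl hP.ne')
  have hev : rho A t =ᶠ[𝓝 x] fun y => Pq A t y ^ (((n : ℝ) + 2) / 2) := by
    filter_upwards [(isOpen_Om t).mem_nhds hx] with y hy
    exact rho_eq t y hy
  exact H.congr_of_eventuallyEq hev

include hA in
lemma R_mul (t : ℝ) (x : E (n + 2)) (hx : x ∈ Om t) :
    R A t x * Pq A t x = ((n : ℝ) + 2) / 2 * rho A t x := by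
  have hP := Pq_pos hA t x hx
  rw [rho_eq t x hx, R, mul_assoc, Real.rpow_sub_one hP.ne', div_mul_cancel₀ _ hP.ne']

/-- every vector is the sum of its components -/
lemma sum_e {d : ℕ} (x : E d) : ∑ j, x j • (e j : E d) = x := by
  ext i
  simp [Finset.sum_apply, Pi.single_apply]

/-- the divergence of the velocity -/
lemma trace_UL (t : ℝ) : ∑ j, (UL t (e j : E (n + 2))) j = (n + 2) * (t / (1 + t ^ 2)) := by
  have h : ∀ j : Fin (n + 2), (UL t (e j : E (n + 2))) j = t / (1 + t ^ 2) +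
      (√2 / (1 + t ^ 2) * (-(15 / 16 * Real.sin (th t)) * (e j : E (n + 2)) 0 +
        (15 / 16 * Real.cos (th t) + 9 / 16) * (e j : E (n + 2)) 1)) * (e 0 : E (n + 2)) j +
      (√2 / (1 + t ^ 2) * ((15 / 16 * Real.cos (th t) - 9 / 16) * (e j : E (n + 2)) 0 +
        15 / 16 * Real.sin (th t) * (e j : E (n + 2)) 1)) * (e 1 : E (n + 2)) j := by
    intro j
    rw [UL_eq]
    simp
  simp only [h]
  rw [Fin.sum_univ_succ, Fin.sum_univ_succ]
  simp [Fin.succ_succ_ne_one]
  ring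

/-- `u` as a function -/
lemma hasFDerivAt_u (t : ℝ) (x : E (n + 2)) (i : Fin (n + 2)) :
    HasFDerivAt (fun y : E (n + 2) => UL t y i)
      ((EuclideanSpace.proj i : E (n + 2) →L[ℝ] ℝ).comp (UL t)) x :=
  ((EuclideanSpace.proj i : E (n + 2) →L[ℝ] ℝ).comp (UL t)).hasFDerivAt

include hA in
lemma continuity_eq (t : ℝ) (x : E (n + 2)) (hx : x ∈ Om t) :
    deriv (fun s => rho A s x) t +
      ∑ j, fderiv ℝ (fun y => rho A t y * UL t y j) x (e j) = 0 := by
  rw [(hasDerivAt_rho hA t x hx).deriv]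
  have h1 : ∀ j : Fin (n + 2), fderiv ℝ (fun y => rho A t y * UL t y j) x (e j) =
      rho A t x * (UL t (e j : E (n + 2))) j +
      (R A t x * (-(2 * (A * (n + 4))⁻¹ / (1 + t ^ 2)))) * (UL t x j * inner ℝ (G t x) (e j)) := by
    intro j
    have H := (hasFDerivAt_rho hA t x hx).mul (hasFDerivAt_u t x j)
    have H' : fderiv ℝ (fun y => rho A t y * UL t y j) x = _ := H.fderiv
    rw [H']
    simp only [add_apply, smul_apply, smul_eq_mul, innerSL_apply_apply,
      ContinuousLinearMap.comp_apply]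
    simp only [EuclideanSpace.inner_single_right, PiLp.proj_apply]
    simp
    ring
  simp only [h1]
  rw [Finset.sum_add_distrib, ← Finset.mul_sum, ← Finset.mul_sum, trace_UL]
  have h2 : ∑ j, UL t x j * inner ℝ (G t x) (e j) = bq t x (UL t x) := by
    rw [← inner_G]
    conv_rhs => rw [← sum_e (UL t x)]
    rw [inner_sum]
    simp only [inner_smul_right]
  rw [h2]
  have hm := R_mul hA t x hx
  have hd := (den_pos t).ne'
  have hP : (A * (n + 4))⁻¹ * (1 - q t x) = Pq A t x * (1 + t ^ 2) := by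
    unfold Pq
    field_simp
  have e1 : R A t x * ((A * (n + 4))⁻¹ *
      ((2 * bq t x (UL t x)) / (1 + t ^ 2) - (1 - q t x) * (2 * t) / (1 + t ^ 2) ^ 2)) =
      R A t x * (A * (n + 4))⁻¹ * (2 * bq t x (UL t x)) / (1 + t ^ 2) -
      (R A t x * Pq A t x) * (2 * t) / (1 + t ^ 2) := by
    rw [mul_sub, mul_sub]
    have : R A t x * ((A * (n + 4))⁻¹ * ((1 - q t x) * (2 * t) / (1 + t ^ 2) ^ 2)) =
      R A t x * ((A * (n + 4))⁻¹ * (1 - q t x)) * (2 * t) / (1 + t ^ 2) ^ 2 := by ring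
    rw [this, hP]
    field_simp
  rw [e1, hm]
  ring

include hA in
lemma momentum_eq (t : ℝ) (x : E (n + 2)) (hx : x ∈ Om t) (i : Fin (n + 2)) :
    deriv (fun s => rho A s x * UL s x i) t +
      ∑ j, fderiv ℝ (fun y => rho A t y * UL t y i * UL t y j) x (e j) +
      fderiv ℝ (fun y => A * rho A t y ^ gam n) x (e i) = 0 := by
  have hcont := continuity_eq hA t x hx
  have hrt := hasDerivAt_rho hA t x hx
  rw [hrt.deriv] at hcont
  -- the velocity component in time
  have hut : HasDerivAt (fun s => UL s x i) (((1 + t ^ 2)⁻¹ • G t x - UL t (UL t x)) i) t := by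
    have := (EuclideanSpace.proj i : E (n + 2) →L[ℝ] ℝ).hasFDerivAt.comp_hasDerivAt t
      (hasDerivAt_UL t x)
    exact this
  have h0 : deriv (fun s => rho A s x * UL s x i) t = _ := (hrt.mul hut).deriv
  rw [h0]
  have h1 : ∀ j : Fin (n + 2), fderiv ℝ (fun y => rho A t y * UL t y i * UL t y j) x (e j) =
      UL t x i * fderiv ℝ (fun y => rho A t y * UL t y j) x (e j) +
      rho A t x * (UL t x j * (UL t (e j : E (n + 2))) i) := by
    intro j
    have H := (hasFDerivAt_rho hA t x hx).mul (hasFDerivAt_u t x j)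
    have H' : fderiv ℝ (fun y => rho A t y * UL t y j) x = _ := H.fderiv
    have H2 := ((hasFDerivAt_rho hA t x hx).mul (hasFDerivAt_u t x i)).mul (hasFDerivAt_u t x j)
    have H2' : fderiv ℝ (fun y => rho A t y * UL t y i * UL t y j) x = _ := H2.fderiv
    rw [H', H2']
    simp only [add_apply, smul_apply, smul_eq_mul, innerSL_apply_apply,
      ContinuousLinearMap.comp_apply, PiLp.proj_apply, Pi.mul_apply]
    ring
  simp only [h1]
  rw [Finset.sum_add_distrib, ← Finset.mul_sum, ← Finset.mul_sum]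
  have h2 : ∑ j, UL t x j * (UL t (e j : E (n + 2))) i = UL t (UL t x) i := by
    conv_rhs => rw [← sum_e (UL t x)]
    rw [map_sum]
    simp [Finset.sum_apply]
  rw [h2]
  -- the pressure
  have hP := Pq_pos hA t x hx
  have h3 : fderiv ℝ (fun y => A * rho A t y ^ gam n) x (e i) =
      - (rho A t x * ((1 + t ^ 2)⁻¹ * G t x i)) := by
    have H := ((hasFDerivAt_Pq (A := A) t x).rpow_const (p := ((n : ℝ) + 2) / 2 + 1)
      (Or.inl hP.ne')).const_mul A
    have hev : (fun y => A * rho A t y ^ gam n) =ᶠ[𝓝 x]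
        fun y => A * Pq A t y ^ (((n : ℝ) + 2) / 2 + 1) := by
      filter_upwards [(isOpen_Om t).mem_nhds hx] with y hy
      rw [rho_rpow' hA, Pp_eq t y hy]
    rw [(H.congr_of_eventuallyEq hev).fderiv]
    simp only [smul_apply, smul_eq_mul, innerSL_apply_apply, EuclideanSpace.inner_single_right]
    rw [rho_eq t x hx, add_sub_cancel_right]
    have : (n : ℝ) + 2 ≠ 0 := by positivity
    have h4 : (n : ℝ) + 4 ≠ 0 := by positivity
    have hd := (den_pos t).ne'
    simp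
    field_simp
    ring
  rw [h3]
  simp only [PiLp.sub_apply, PiLp.smul_apply, smul_eq_mul]
  linear_combination (UL t x i) * hcont

/-! ### The front -/

lemma G_ne (t : ℝ) (x : E (n + 2)) (hx : q t x = 1) : 0 < ‖G t x‖ := by
  rw [norm_pos_iff]
  intro h
  have : inner ℝ (G t x) x = q t x := inner_G t x x
  rw [h, inner_zero_left, hx] at this
  exact zero_ne_one this

include hA in
lemma front_eq (t : ℝ) (x : E (n + 2)) (hx : q t x = 1) :
    ∃ (ν : E (n + 2)) (k g : ℝ), ‖ν‖ = 1 ∧ 0 < k ∧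
      (∀ v, fderiv ℝ (fun y => q t y - 1) x v = k * inner ℝ ν v) ∧
      deriv (fun s => q s x - 1) t + k * inner ℝ (UL t x) ν = 0 ∧
      0 < g ∧
      HasDerivWithinAt (fun s : ℝ => gam n * A * rho A t (x + s • ν) ^ (gam n - 1))
        (-((gam n - 1) * g)) (Iic 0) 0 ∧
      deriv (fun s => UL s x) t + fderiv ℝ (fun y => UL t y) x (UL t x) = g • ν := by
  have hG := G_ne t x hx
  have hd := den_pos t
  have hin : ∀ v, inner ℝ (‖G t x‖⁻¹ • G t x) v = ‖G t x‖⁻¹ * bq t x v := by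
    intro v
    rw [inner_smul_left, inner_G]
    rfl
  refine ⟨‖G t x‖⁻¹ • G t x, 2 * ‖G t x‖, ‖G t x‖ / (1 + t ^ 2), ?_, by positivity, ?_, ?_,
    by positivity, ?_, ?_⟩
  · rw [norm_smul, norm_inv, norm_norm, inv_mul_cancel₀ hG.ne']
  · intro v
    rw [hin, ((hasFDerivAt_q t x).sub_const 1).fderiv]
    simp only [smul_apply, innerSL_apply_apply, inner_G, smul_eq_mul]
    field_simp
  · rw [((hasDerivAt_q t x).sub_const 1).deriv, real_inner_comm, hin]
    field_simp
    ring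
  · set ν := ‖G t x‖⁻¹ • G t x with hν
    have hb : bq t x ν = ‖G t x‖ := by
      rw [← inner_G, hν, inner_smul_right, real_inner_self_eq_norm_sq]
      field_simp
    have hc : (fun s : ℝ => gam n * A * rho A t (x + s • ν) ^ (gam n - 1)) =ᶠ[𝓝[Iic 0] 0]
        fun s => gam n * A * ((A * (n + 4))⁻¹ *
          (-(s * (2 * ‖G t x‖) + s ^ 2 * q t ν) / (1 + t ^ 2))) := by
      have h1 : ∀ᶠ s : ℝ in 𝓝[Iic 0] 0, 0 < 2 * ‖G t x‖ + s * q t ν := by
        refine nhdsWithin_le_nhds ?_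
        have : Continuous fun s : ℝ => 2 * ‖G t x‖ + s * q t ν := by fun_prop
        exact (isOpen_lt continuous_const this).mem_nhds (by simpa using hG)
      filter_upwards [h1, self_mem_nhdsWithin] with s hs1 hs2
      have hs2 : s ≤ 0 := hs2
      rw [rho_rpow hA, Pp, q_expand, hx, hb, max_eq_left]
      · congr 3
        ring
      · refine div_nonneg ?_ hd.le
        nlinarith
    have hz : gam n * A * rho A t (x + (0 : ℝ) • ν) ^ (gam n - 1) = gam n * A * ((A * (n + 4))⁻¹ *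
          (-((0 : ℝ) * (2 * ‖G t x‖) + 0 ^ 2 * q t ν) / (1 + t ^ 2))) := by
      rw [rho_rpow hA, Pp, q_expand, hx, hb]
      simp
    refine HasDerivWithinAt.congr_of_eventuallyEq ?_ hc hz
    have H : HasDerivAt (fun s : ℝ => gam n * A * ((A * (n + 4))⁻¹ *
          (-(s * (2 * ‖G t x‖) + s ^ 2 * q t ν) / (1 + t ^ 2))))
        (gam n * A * ((A * (n + 4))⁻¹ *
          (-(1 * (2 * ‖G t x‖) + (2 * (0 : ℝ)) * q t ν) / (1 + t ^ 2)))) 0 := by
      have hsq : HasDerivAt (fun s : ℝ => s ^ 2) (2 * (0 : ℝ)) 0 := by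
        have := (hasDerivAt_id (0 : ℝ)).pow 2
        exact this.congr_deriv (by simp)
      exact (((((hasDerivAt_id (0 : ℝ)).mul_const (2 * ‖G t x‖)).add
        (hsq.mul_const (q t ν))).neg.div_const (1 + t ^ 2)).const_mul _).const_mul _
    refine (H.congr_deriv ?_).hasDerivWithinAt
    have : (n : ℝ) + 2 ≠ 0 := by positivity
    have h4 : (n : ℝ) + 4 ≠ 0 := by positivity
    unfold gam
    field_simp
    ring
  · have h1 : fderiv ℝ (fun y => UL t y) x = UL t := (UL t : E (n + 2) →L[ℝ] E (n + 2)).fderiv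
    rw [(hasDerivAt_UL t x).deriv, h1, sub_add_cancel, smul_smul]
    congr 1
    field_simp

include hA in
lemma isEternalFlow : IsEternalFlow (n + 2) A (gam n) Om (rho A) (fun t x => UL t x) where
  domain t := ⟨isOpen_Om t, ⟨0, by show q t 0 < 1; rw [q_zero]; exact one_pos⟩,
    Metric.isBounded_closedBall.subset (Om_subset_ball t)⟩
  pos t x hx := rho_pos hA t x hx
  vacuum t x hx := rho_zero t x hx
  mass t := integrable_of_zero (continuous_rho hA t) t fun x hx => rho_zero t x hx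
  energy t := by
    have hg : (0 : ℝ) < gam n := by unfold gam; positivity
    refine integrable_of_zero (t := t) ?_ ?_
    · exact (((continuous_rho hA t).mul ((UL t).continuous.norm.pow 2)).div_const 2).add
        ((continuous_const.mul ((continuous_rho hA t).rpow_const fun _ => Or.inr hg.le)).div_const _)
    · intro x hx
      rw [rho_zero t x hx, Real.zero_rpow hg.ne']
      simp
  smoothDensity := by
    refine ⟨isOpen_dom, ?_⟩
    have h1 : ContDiffOn ℝ 1 (fun z : ℝ × E (n + 2) => Pq A z.1 z.2 ^ (((n : ℝ) + 2) / 2))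
        {z | z.2 ∈ Om z.1} := by
      intro z hz
      have hP := Pq_pos hA z.1 z.2 hz
      exact ((contDiff_Pq.of_le (by norm_cast)).contDiffAt.rpow_const_of_ne
        hP.ne').contDiffWithinAt
    exact h1.congr fun z hz => rho_eq z.1 z.2 hz
  smoothVelocity := contDiff_UL
  continuity t x hx := continuity_eq hA t x hx
  momentum t x hx i := momentum_eq hA t x hx i
  lipschitz := by
    have hg : (0 : ℝ) < gam n := by unfold gam; positivity
    have : (fun z : ℝ × E (n + 2) => gam n * A * rho A z.1 z.2 ^ (gam n - 1)) =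
        fun z => max (gam n * A * Pq A z.1 z.2) 0 := by
      funext z
      rw [rho_rpow hA, Pp_max hA, mul_max_of_nonneg _ _ (by positivity), mul_zero]
    rw [this]
    have h1 : ContDiff ℝ 1 (fun z : ℝ × E (n + 2) => gam n * A * Pq A z.1 z.2) :=
      contDiff_const.mul (contDiff_Pq.of_le (by norm_cast))
    exact h1.locallyLipschitz.max_const 0
  front := by
    refine ⟨fun t x => q t x - 1, contDiff_q.sub contDiff_const, fun t => ?_, frontier_Om, ?_⟩
    · ext x
      show q t x < 1 ↔ q t x - 1 < 0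
      exact sub_neg.symm
    · intro t x hx
      exact front_eq hA t x (by have hx : q t x - 1 = 0 := hx; linarith)

/-! ### The asymptotic shapes -/

/-- the limit quadratic form -/
noncomputable def Q (θ : ℝ) (x : E (n + 2)) : ℝ :=
  ‖x‖ ^ 2 + 9 / 8 * (x 0 * x 0 + x 1 * x 1) -
    15 / 8 * (Real.cos θ * (x 0 * x 0 - x 1 * x 1) + Real.sin θ * (x 0 * x 1 + x 1 * x 0))

/-- the limit shape -/
def Ell (θ : ℝ) : Set (E (n + 2)) := {x | Q θ x < 1}

lemma Q_smul (θ s : ℝ) (x : E (n + 2)) : Q θ (s • x) = s ^ 2 * Q θ x := by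
  unfold Q
  rw [norm_smul, mul_pow, Real.norm_eq_abs, sq_abs]
  simp only [PiLp.smul_apply, smul_eq_mul]
  ring

lemma Q_lower (θ : ℝ) (x : E (n + 2)) : ‖x‖ ^ 2 ≤ 4 * Q θ x := by
  have h1 := sq_two_le x
  have h2 := abs_le.1 (rot_le (Real.cos θ) (Real.sin θ) (x 0) (x 1) (Real.sin_sq_add_cos_sq _))
  unfold Q
  nlinarith [h2.2]

lemma Q_nonneg (θ : ℝ) (x : E (n + 2)) : 0 ≤ Q θ x := by
  have := Q_lower θ x
  nlinarith [sq_nonneg ‖x‖]

/-- the distance of two angles -/
noncomputable def kap (θ θ' : ℝ) : ℝ :=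
  15 / 8 * (|Real.cos θ - Real.cos θ'| + |Real.sin θ - Real.sin θ'|)

lemma kap_nonneg (θ θ' : ℝ) : 0 ≤ kap θ θ' := by unfold kap; positivity

lemma Q_diff (θ θ' : ℝ) (x : E (n + 2)) : |Q θ x - Q θ' x| ≤ kap θ θ' * ‖x‖ ^ 2 := by
  have h1 := sq_two_le x
  have h0 : |x 0 * x 0 - x 1 * x 1| ≤ ‖x‖ ^ 2 := by
    rw [abs_le]
    constructor <;> nlinarith [sq_nonneg (x 0), sq_nonneg (x 1)]
  have h2 : |x 0 * x 1 + x 1 * x 0| ≤ ‖x‖ ^ 2 := by
    rw [abs_le]
    constructor <;> nlinarith [sq_nonneg (x 0 + x 1), sq_nonneg (x 0 - x 1)]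
  have e1 : Q θ x - Q θ' x = - (15 / 8 * ((Real.cos θ - Real.cos θ') * (x 0 * x 0 - x 1 * x 1) +
      (Real.sin θ - Real.sin θ') * (x 0 * x 1 + x 1 * x 0))) := by
    unfold Q
    ring
  rw [e1, abs_neg, abs_mul, abs_of_pos (by norm_num : (0 : ℝ) < 15 / 8)]
  have h3 := abs_add_le ((Real.cos θ - Real.cos θ') * (x 0 * x 0 - x 1 * x 1))
    ((Real.sin θ - Real.sin θ') * (x 0 * x 1 + x 1 * x 0))
  rw [abs_mul, abs_mul] at h3
  have h4 := mul_le_mul_of_nonneg_left h0 (abs_nonneg (Real.cos θ - Real.cos θ'))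
  have h5 := mul_le_mul_of_nonneg_left h2 (abs_nonneg (Real.sin θ - Real.sin θ'))
  unfold kap
  linarith

lemma mem_scaled {t : ℝ} (ht : t ≠ 0) (y : E (n + 2)) :
    y ∈ t⁻¹ • (Om t : Set (E (n + 2))) ↔ t ^ 2 / (1 + t ^ 2) * Q (th t) y < 1 := by
  rw [Set.mem_inv_smul_set_iff₀ ht]
  have h1 : t ^ 2 / (1 + t ^ 2) * Q (th t) y = q t (t • y) := by
    rw [q_smul, q_eq, Q]
    ring
  rw [h1]
  rfl

/-- two sided comparison of the quadratic forms -/
lemma compare (t θ : ℝ) (y : E (n + 2)) :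
    (1 - (1 - t ^ 2 / (1 + t ^ 2) * (1 - 4 * kap (th t) θ))) * Q θ y ≤
      t ^ 2 / (1 + t ^ 2) * Q (th t) y ∧
    t ^ 2 / (1 + t ^ 2) * Q (th t) y ≤
      (1 + (1 - t ^ 2 / (1 + t ^ 2) * (1 - 4 * kap (th t) θ))) * Q θ y := by
  have hd := den_pos t
  have hr0 : 0 ≤ t ^ 2 / (1 + t ^ 2) := by positivity
  have hr1 : t ^ 2 / (1 + t ^ 2) ≤ 1 := by
    rw [div_le_one hd]
    linarith
  have h1 := abs_le.1 (Q_diff (th t) θ y)
  have h2 := Q_lower θ y
  have h3 := kap_nonneg (th t) θ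
  have h4 := Q_nonneg θ y
  have h5 := Q_nonneg (th t) y
  have h6 := mul_le_mul_of_nonneg_left h2 h3
  generalize t ^ 2 / (1 + t ^ 2) = r at *
  generalize kap (th t) θ = κ at *
  generalize Q θ y = a at *
  generalize Q (th t) y = b at *
  constructor
  · have : (1 - 4 * κ) * a ≤ b := by linarith [h1.1]
    have := mul_le_mul_of_nonneg_left this hr0
    linarith
  · have h7 : b ≤ (1 + 4 * κ) * a := by linarith [h1.2]
    have h8 : r * b ≤ r * ((1 + 4 * κ) * a) := mul_le_mul_of_nonneg_left h7 hr0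
    have h9 : r * a ≤ a := mul_le_of_le_one_left h4 hr1
    linarith

lemma hausdorff_le {t θ ε : ℝ} (ht : t ≠ 0)
    (he : 1 - t ^ 2 / (1 + t ^ 2) * (1 - 4 * kap (th t) θ) = ε) (h2 : ε ≤ 1 / 2) :
    Metric.hausdorffEDist (closure (t⁻¹ • (Om t : Set (E (n + 2))))) (closure (Ell θ)) ≤
      ENNReal.ofReal (3 * ε) := by
  rw [Metric.hausdorffEDist_closure]
  have hc := fun y : E (n + 2) => compare t θ y
  rw [he] at hc
  have h0 : 0 ≤ ε := by
    rw [← he]
    have hd := den_pos t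
    have hr0 : 0 ≤ t ^ 2 / (1 + t ^ 2) := by positivity
    have hr1 : t ^ 2 / (1 + t ^ 2) ≤ 1 := by
      rw [div_le_one hd]
      linarith
    have h3 := kap_nonneg (th t) θ
    nlinarith
  have hdist : ∀ y : E (n + 2), ‖y‖ ≤ 3 → edist y ((1 - ε) • y) ≤ ENNReal.ofReal (3 * ε) := by
    intro y hy
    rw [edist_dist, dist_eq_norm]
    refine ENNReal.ofReal_le_ofReal ?_
    have : y - (1 - ε) • y = ε • y := by
      rw [sub_smul, one_smul, sub_sub_cancel]
    rw [this, norm_smul, Real.norm_eq_abs, abs_of_nonneg h0]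
    nlinarith
  refine Metric.hausdorffEDist_le_of_mem_edist ?_ ?_
  · intro y hy
    rw [mem_scaled ht] at hy
    have h3 := (hc y).1
    have h4 := Q_nonneg θ y
    refine ⟨(1 - ε) • y, ?_, hdist y ?_⟩
    · show Q θ ((1 - ε) • y) < 1
      rw [Q_smul]
      nlinarith
    · have := Q_lower θ y
      refine abs_le_of_sq_le_sq' ?_ (by norm_num) |>.2
      nlinarith
  · intro y hy
    have hy : Q θ y < 1 := hy
    have h3 := (hc y).2
    have h4 := Q_nonneg θ y
    refine ⟨(1 - ε) • y, ?_, hdist y ?_⟩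
    · rw [mem_scaled ht, Q_smul]
      have h5 : t ^ 2 / (1 + t ^ 2) * ((1 - ε) ^ 2 * Q (th t) y) =
        (1 - ε) ^ 2 * (t ^ 2 / (1 + t ^ 2) * Q (th t) y) := by ring
      rw [h5]
      have h6 : (1 - ε) ^ 2 * (t ^ 2 / (1 + t ^ 2) * Q (th t) y) ≤
        (1 - ε) ^ 2 * ((1 + ε) * Q θ y) := mul_le_mul_of_nonneg_left h3 (sq_nonneg _)
      have h7 : (1 - ε) ^ 2 * ((1 + ε) * Q θ y) = (1 - ε) * (1 - ε ^ 2) * Q θ y := by ring
      have h8 : (1 - ε) * (1 - ε ^ 2) ≤ 1 := by
        have : (1 - ε) * (1 - ε ^ 2) ≤ 1 * 1 :=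
          mul_le_mul (by linarith) (by nlinarith) (by nlinarith) (by norm_num)
        linarith
      nlinarith
    · have := Q_lower θ y
      refine abs_le_of_sq_le_sq' ?_ (by norm_num) |>.2
      nlinarith

lemma behaves_of_tendsto {l : Filter ℝ} {θ : ℝ} (h1 : Tendsto th l (𝓝 θ))
    (h2 : Tendsto (fun t : ℝ => t ^ 2 / (1 + t ^ 2)) l (𝓝 1)) (h3 : ∀ᶠ t in l, t ≠ 0) :
    Behaves (Om : ℝ → Set (E (n + 2))) (Ell θ) l := by
  have hk : Tendsto (fun t => kap (th t) θ) l (𝓝 0) := by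
    have hcont : Continuous fun s => kap s θ := by
      unfold kap
      fun_prop
    have := (hcont.tendsto θ).comp h1
    simpa [kap, Function.comp_def] using this
  have hε : Tendsto (fun t => 1 - t ^ 2 / (1 + t ^ 2) * (1 - 4 * kap (th t) θ)) l (𝓝 0) := by
    have := (h2.mul ((hk.const_mul 4).const_sub 1)).const_sub 1
    simpa using this
  have hE : Tendsto (fun t => ENNReal.ofReal
      (3 * (1 - t ^ 2 / (1 + t ^ 2) * (1 - 4 * kap (th t) θ)))) l (𝓝 0) := by
    have := ENNReal.tendsto_ofReal (hε.const_mul 3)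
    simpa using this
  refine tendsto_of_tendsto_of_tendsto_of_le_of_le' tendsto_const_nhds hE
    (Eventually.of_forall fun _ => bot_le) ?_
  filter_upwards [h3, hε.eventually (gt_mem_nhds (by norm_num : (0 : ℝ) < 1 / 2))] with t ht1 ht2
  exact hausdorff_le ht1 rfl ht2.le

lemma tendsto_ratio {l : Filter ℝ} (h : Tendsto (fun t : ℝ => t ^ 2) l atTop) :
    Tendsto (fun t : ℝ => t ^ 2 / (1 + t ^ 2)) l (𝓝 1) := by
  have h1 : Tendsto (fun t : ℝ => 1 + t ^ 2) l atTop := tendsto_atTop_add_const_left _ _ h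
  have h2 : Tendsto (fun t : ℝ => 1 - (1 + t ^ 2)⁻¹) l (𝓝 (1 - 0)) :=
    (tendsto_inv_atTop_zero.comp h1).const_sub 1
  rw [sub_zero] at h2
  refine h2.congr fun t => ?_
  have := (den_pos t).ne'
  field_simp
  ring

lemma behaves_top : Behaves (Om : ℝ → Set (E (n + 2))) (Ell (√2 * (Real.pi / 2))) atTop := by
  refine behaves_of_tendsto ?_ (tendsto_ratio (tendsto_pow_atTop (by norm_num)))
    (eventually_ne_atTop 0)
  exact (Real.tendsto_arctan_atTop.mono_right nhdsWithin_le_nhds).const_mul _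

lemma behaves_bot : Behaves (Om : ℝ → Set (E (n + 2))) (Ell (√2 * (-(Real.pi / 2)))) atBot := by
  refine behaves_of_tendsto ?_ (tendsto_ratio ?_) (eventually_ne_atBot 0)
  · exact (Real.tendsto_arctan_atBot.mono_right nhdsWithin_le_nhds).const_mul _
  · have := (tendsto_pow_atTop (α := ℝ) (n := 2) (by norm_num)).comp tendsto_neg_atBot_atTop
    refine this.congr fun t => ?_
    simp

lemma continuous_Q (θ : ℝ) : Continuous (Q θ : E (n + 2) → ℝ) := by
  unfold Q
  fun_prop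

/-- the limit shapes are different -/
lemma closure_ne : closure (Ell (√2 * (Real.pi / 2)) : Set (E (n + 2))) ≠
    closure (Ell (√2 * (-(Real.pi / 2)))) := by
  intro h
  have hs : 0 < Real.sin (√2 * (Real.pi / 2)) := by
    refine Real.sin_pos_of_pos_of_lt_pi (by positivity) ?_
    have h2 : √2 < 2 := by
      rw [Real.sqrt_lt' (by norm_num)]
      norm_num
    nlinarith [Real.pi_pos]
  have hQ : ∀ θ, Q θ (√(4 / 17) • (e 0 + e 1) : E (n + 2)) = 1 - 15 / 17 * Real.sin θ := by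
    intro θ
    have h1 : √(4 / 17 : ℝ) ^ 2 = 4 / 17 := Real.sq_sqrt (by norm_num)
    have h2 : ‖(e 0 + e 1 : E (n + 2))‖ ^ 2 = 2 := by
      have h3 : inner ℝ (e 0 + e 1 : E (n + 2)) (e 0 + e 1) = (2 : ℝ) := by
        simp only [inner_add_left, inner_add_right, EuclideanSpace.inner_single_left]
        simp
        norm_num
      rw [← real_inner_self_eq_norm_sq, h3]
    rw [Q_smul, h1, Q, h2]
    simp
    ring
  have h1 : (√(4 / 17) • (e 0 + e 1) : E (n + 2)) ∈ closure (Ell (√2 * (Real.pi / 2))) := by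
    refine subset_closure ?_
    show Q _ _ < 1
    rw [hQ]
    linarith
  rw [h] at h1
  have h2 : (√(4 / 17) • (e 0 + e 1) : E (n + 2)) ∈ {x | Q (√2 * (-(Real.pi / 2))) x ≤ 1} :=
    closure_minimal (fun y hy => le_of_lt hy) (isClosed_le (continuous_Q _) continuous_const) h1
  have h3 : Q (√2 * (-(Real.pi / 2))) (√(4 / 17) • (e 0 + e 1) : E (n + 2)) ≤ 1 := h2
  rw [hQ, mul_neg, Real.sin_neg] at h3
  linarith

lemma isBounded_Ell (θ : ℝ) : Bornology.IsBounded (Ell θ : Set (E (n + 2))) := by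
  refine (Metric.isBounded_closedBall (x := (0 : E (n + 2))) (r := 2)).subset fun x hx => ?_
  have hx : Q θ x < 1 := hx
  have := Q_lower θ x
  rw [mem_closedBall_zero_iff]
  refine abs_le_of_sq_le_sq' ?_ (by norm_num) |>.2
  nlinarith

/-- limit shapes are unique up to closure -/
lemma behaves_unique {d : ℕ} {Ω : ℝ → Set (E d)} {O O' : Set (E d)} {l : Filter ℝ} [l.NeBot]
    (h : Behaves Ω O l) (h' : Behaves Ω O' l) : closure O = closure O' := by
  have h1 : Metric.hausdorffEDist (closure O) (closure O') = 0 := by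
    have h2 : Tendsto (fun t : ℝ => Metric.hausdorffEDist (closure (t⁻¹ • Ω t)) (closure O) +
        Metric.hausdorffEDist (closure (t⁻¹ • Ω t)) (closure O')) l (𝓝 (0 + 0)) := h.add h'
    rw [add_zero] at h2
    refine le_antisymm (ge_of_tendsto' h2 fun t => ?_) bot_le
    rw [Metric.hausdorffEDist_comm (s := closure (t⁻¹ • Ω t)) (t := closure O)]
    exact Metric.hausdorffEDist_triangle
  exact (isClosed_closure.hausdorffEDist_zero_iff isClosed_closure).1 h1

end example_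

/-- **A shock-free eternal gas cloud with physical singularity whose limit shapes at `t → -∞` and
`t → +∞` are different.** For every dimension `d = n + 2 ≥ 2`, every `A > 0` and `γ = 1 + 2 / d`
there is a shock-free eternal flow in vacuum, with `g > 0` at every point of the front, such that
`Ω t / t` converges at both ends, but to different shapes; so no single shape serves at both ends. -/
theorem result : ∀ (n : ℕ) (A : ℝ), 0 < A →
    ∃ (Ω : ℝ → Set (E (n + 2))) (ρ : ℝ → E (n + 2) → ℝ) (u : ℝ → E (n + 2) → E (n + 2)),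
      IsEternalFlow (n + 2) A (1 + 2 / ((n : ℝ) + 2)) Ω ρ u ∧
      (∃ O₁ O₂ : Set (E (n + 2)), Bornology.IsBounded O₁ ∧ Bornology.IsBounded O₂ ∧
        Behaves Ω O₁ atTop ∧ Behaves Ω O₂ atBot) ∧
      ¬ ∃ O : Set (E (n + 2)), Behaves Ω O atTop ∧ Behaves Ω O atBot := by
  intro n A hA
  refine ⟨Om, rho A, fun t x => UL t x, isEternalFlow hA,
    ⟨_, _, isBounded_Ell _, isBounded_Ell _, behaves_top, behaves_bot⟩, ?_⟩
  rintro ⟨O, h1, h2⟩
  exact closure_ne ((behaves_unique behaves_top h1).trans (behaves_unique h2 behaves_bot))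

end Pool.Agent.Results.MP_f907ca_an.TwistedCloud
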